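import Pool.Agent.Q58.SF.Main

/-!
MP_3acc10_al, Q1: the conjectured Hilbert series of generic ideals in the square-free algebra fails,
over every infinite field, for every `n = 2 s + 1 ≥ 7` and every `r ≥ 2`.

The quotient by two linear forms (and any forms of degree greater than `s`) has a nonzero component
of degree `s`, because the determinant of a Hankel matrix, the equation of a secant variety of a
rational normal curve, is a square-free form of degree `s` which two derivations kill; the predicted
coefficient is `0`.
-/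

set_option autoImplicit false

namespace Pool.Agent.Results.MP_3acc10_al.LinearFormsFail

open Pool.Agent.Q58.SF

/-- (1) Let `K` be a field, `s ≥ 3`, `n = 2 s + 1`, `r ≥ 2`, `d_1 = d_2 = 1` and `d_i > s` for all
`i ≥ 3`. For every ideal of the square-free algebra in `n` variables generated by forms of the
degrees `d_i`, the component of degree `s` of the quotient is not zero, while the coefficient of
`t ^ s` in the truncated series is zero. If `K` is infinite then the truncated series is not the
Hilbert series of the quotient by a generic ideal.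

(2) So, over every infinite field, the answer to the question is negative. -/
theorem result :
    (∀ (K : Type) [Field K] (s r : ℕ) (d : Fin (r + 2) → ℕ), 3 ≤ s → d 0 = 1 → d 1 = 1 →
      (∀ i, i ≠ 0 → i ≠ 1 → s < d i) →
      (∀ c : ∀ i, Mon (2 * s + 1) (d i) → K, 0 < hilb K c s) ∧ predicted (2 * s + 1) d s = 0 ∧
      (Infinite K → ¬ IsGenericHilb K (2 * s + 1) d (predicted (2 * s + 1) d))) ∧
    ∀ (K : Type) [Field K] [Infinite K], ¬ ∀ (n r : ℕ) (d : Fin r → ℕ), (∀ i, 0 < d i) →
      IsGenericHilb K n d (predicted n d) := by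
  have key : ∀ (K : Type) [Field K] (s r : ℕ) (d : Fin (r + 2) → ℕ), 3 ≤ s → d 0 = 1 → d 1 = 1 →
      (∀ i, i ≠ 0 → i ≠ 1 → s < d i) →
      (∀ c : ∀ i, Mon (2 * s + 1) (d i) → K, 0 < hilb K c s) ∧ predicted (2 * s + 1) d s = 0 ∧
      (Infinite K → ¬ IsGenericHilb K (2 * s + 1) d (predicted (2 * s + 1) d)) := by
    intro K _ s r d hs h0 h1 hd
    have hpos : ∀ c : ∀ i, Mon (2 * s + 1) (d i) → K, 0 < hilb K c s := by
      intro c
      obtain ⟨m, rfl⟩ : ∃ m, s = m + 1 := ⟨s - 1, by omega⟩
      exact hilb_pos' rfl h0 h1 hd c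
    have hpred : predicted (2 * s + 1) d s = 0 := by
      unfold predicted
      rw [if_neg]
      intro h
      have h2 := series_coeff hs h0 h1 hd
      have h3 := h s le_rfl
      omega
    refine ⟨hpos, hpred, ?_⟩
    rintro hK ⟨Q, hQ, h⟩
    obtain ⟨x, hx⟩ : ∃ x : (Σ i : Fin (r + 2), Mon (2 * s + 1) (d i)) → K,
        MvPolynomial.eval x Q ≠ 0 := by
      by_contra hcon
      push Not at hcon
      exact hQ (MvPolynomial.funext fun x => by rw [hcon x, map_zero])
    have h2 := h (fun i S => x ⟨i, S⟩) hx s
    have h3 := hpos (fun i S => x ⟨i, S⟩)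
    rw [hpred] at h2
    omega
  refine ⟨key, ?_⟩
  intro K _ hK h
  exact (key K 3 0 (fun _ => 1) le_rfl rfl rfl (fun i h0 h1 => by
    fin_cases i
    · exact absurd rfl h0
    · exact absurd rfl h1)).2.2 hK (h 7 2 (fun _ => 1) fun _ => Nat.one_pos)

end Pool.Agent.Results.MP_3acc10_al.LinearFormsFail
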